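import Pool.Agent.Lib.MP_bfe725_co.Defs
import Pool.Agent.Lib.MP_bfe725_co.PCP
import Pool.Agent.Lib.MP_bfe725_co.Bertrand

set_option autoImplicit false

namespace Pool.Agent.Results.MP_bfe725_co.Alternating

open Pool.Agent.Lib.MP_bfe725_co Equiv Equiv.Perm

/-- Alternating groups of degree at least five have a prime all of whose elements are
conjugate. -/
theorem alt_conj (n : ℕ) (hn : 5 ≤ n) : ∃ p : ℕ, p.Prime ∧
    p ∣ Nat.card (alternatingGroup (Fin n)) ∧
    ∀ x y : alternatingGroup (Fin n), orderOf x = p → orderOf y = p → IsConj x y := by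
  by_cases h6 : n = 6
  · subst h6
    have key : ∀ x : alternatingGroup (Fin 6), orderOf x = 2 →
        (x : Perm (Fin 6)).cycleType = Multiset.replicate 2 2 := by
      intro x hx
      have hx' : orderOf (x : Perm (Fin 6)) = 2 := by rw [Subgroup.orderOf_coe]; exact hx
      obtain ⟨k, hk⟩ := cycleType_prime_order (σ := (x : Perm (Fin 6))) (by rw [hx']; norm_num)
      rw [hx'] at hk
      have hs : Perm.sign (x : Perm (Fin 6)) = 1 := Perm.mem_alternatingGroup.mp x.2
      rw [sign_of_cycleType, hk] at hs
      have hsum := sum_cycleType (x : Perm (Fin 6))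
      have hle := Finset.card_le_univ (x : Perm (Fin 6)).support
      rw [← hsum, hk, Fintype.card_fin] at hle
      simp only [Multiset.sum_replicate, Multiset.card_replicate, smul_eq_mul] at hs hle
      have hk3 : k ≤ 2 := by omega
      interval_cases k
      · exact absurd hs (by decide)
      · exact hk
      · exact absurd hs (by decide)
    refine ⟨2, Nat.prime_two, ?_, ?_⟩
    · have h1 := two_mul_nat_card_alternatingGroup (α := Fin 6)
      rw [Nat.card_eq_fintype_card, Nat.card_eq_fintype_card, Fintype.card_perm, Fintype.card_fin] at h1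
      rw [Nat.card_eq_fintype_card]
      have : Nat.factorial 6 = 720 := by decide
      omega
    · intro x y hx hy
      apply alternatingGroup.isConj_of
      · rw [isConj_iff_cycleType_eq, key x hx, key y hy]
      · rw [← sum_cycleType, key x hx]
        simp
  · obtain ⟨p, hp, h1, h2⟩ : ∃ p : ℕ, p.Prime ∧ n < 2 * p ∧ p + 2 ≤ n := by
      rcases Nat.lt_or_ge n 7 with h | h
      · exact ⟨3, Nat.prime_three, by omega, by omega⟩
      · exact exists_prime_half n h
    have hnt : Nontrivial (Fin n) := Fin.nontrivial_iff_two_le.mpr (by omega)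
    refine ⟨p, hp, ?_, ?_⟩
    · have h3 := two_mul_nat_card_alternatingGroup (α := Fin n)
      rw [Nat.card_perm, Nat.card_fin] at h3
      have h4 : p ∣ 2 * Nat.card (alternatingGroup (Fin n)) := by
        rw [h3]
        exact Nat.dvd_factorial hp.pos (by omega)
      rcases hp.dvd_mul.mp h4 with h5 | h5
      · have := Nat.le_of_dvd two_pos h5
        omega
      · exact h5
    · intro x y hx hy
      have hcyc : ∀ z : alternatingGroup (Fin n), orderOf z = p →
          (z : Perm (Fin n)).IsCycle ∧ (z : Perm (Fin n)).support.card = p := by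
        intro z hz
        have hz' : orderOf (z : Perm (Fin n)) = p := by rw [Subgroup.orderOf_coe]; exact hz
        have hc : (z : Perm (Fin n)).IsCycle := by
          apply isCycle_of_prime_order'
          · rw [hz']; exact hp
          · rw [hz', Fintype.card_fin]; exact h1
        exact ⟨hc, by rw [← hc.orderOf, hz']⟩
      obtain ⟨hx1, hx2⟩ := hcyc x hx
      obtain ⟨hy1, hy2⟩ := hcyc y hy
      apply alternatingGroup.isConj_of
      · exact hx1.isConj hy1 (by rw [hx2, hy2])
      · rw [hx2, Fintype.card_fin]
        exact h2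

/-- For every `n ≥ 5` the largest degree of a partial congruence partition of `A_n × A_n`
is three, i.e. `T(A_n × A_n) = 3`. -/
theorem result : ∀ n : ℕ, 5 ≤ n →
    IsGreatest (pcpDegrees (alternatingGroup (Fin n) × alternatingGroup (Fin n))) 3 := by
  intro n hn
  obtain ⟨p, hp, hpd, hconj⟩ := alt_conj n hn
  have hnt : Nontrivial (alternatingGroup (Fin n)) := by
    rw [← Finite.one_lt_card_iff_nontrivial]
    exact lt_of_lt_of_le hp.one_lt (Nat.le_of_dvd Nat.card_pos hpd)
  exact ⟨three_mem, fun r hr => le_three hp hpd hconj hr⟩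

end Pool.Agent.Results.MP_bfe725_co.Alternating
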