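import Pool.Agent.Lib.MP_bfe725_co.Defs
import Pool.Agent.Lib.MP_bfe725_co.PCP

set_option autoImplicit false

namespace Pool.Agent.Results.MP_bfe725_co.ClassBound

open Pool.Agent.Lib.MP_bfe725_co

/-- Conjugacy in `G` of subgroups of order `p`: `P` and `Q` are related if `g P g⁻¹ = Q` for some
`g` in `G`. -/
def subgroupConj (G : Type) [Group G] (p : ℕ) : Setoid {P : Subgroup G // Nat.card P = p} where
  r P Q := ∃ g : G, ∀ x : G, x ∈ P.1 ↔ g * x * g⁻¹ ∈ Q.1
  iseqv := by
    refine ⟨?_, ?_, ?_⟩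
    · intro P
      exact ⟨1, fun x => by simp⟩
    · rintro P Q ⟨g, hg⟩
      refine ⟨g⁻¹, fun x => ?_⟩
      rw [hg (g⁻¹ * x * g⁻¹⁻¹)]
      have : g * (g⁻¹ * x * g⁻¹⁻¹) * g⁻¹ = x := by group
      rw [this]
    · rintro P Q R ⟨g, hg⟩ ⟨h, hh⟩
      refine ⟨h * g, fun x => ?_⟩
      rw [hg x, hh (g * x * g⁻¹)]
      have : h * (g * x * g⁻¹) * h⁻¹ = h * g * x * (h * g)⁻¹ := by group
      rw [this]

/-- Let `G` be a finite group, `p` a prime dividing `s`. A partial congruence partition of order
`s` of `G` has degree at most the number of conjugacy classes of subgroups of order `p` of `G`. -/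
theorem result : ∀ (G : Type) [Group G] [Finite G] (s r p : ℕ) (U : Fin r → Subgroup G),
    IsPCP s U → p.Prime → p ∣ s → r ≤ Nat.card (Quotient (subgroupConj G p)) := by
  classical
  intro G _ _ s r p U hU hp hps
  obtain ⟨hG, hs, hint⟩ := hU
  have hfact : Fact p.Prime := ⟨hp⟩
  have hel : ∀ i, ∃ z : G, z ∈ U i ∧ orderOf z = p := by
    intro i
    have : p ∣ Nat.card (U i) := by rw [hs i]; exact hps
    obtain ⟨z, hz⟩ := exists_prime_orderOf_dvd_card' p this
    exact ⟨z, z.2, by rw [← hz]; exact Subgroup.orderOf_coe z⟩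
  choose z hzU hzp using hel
  let P : Fin r → {P : Subgroup G // Nat.card P = p} := fun i =>
    ⟨Subgroup.zpowers (z i), by rw [Nat.card_zpowers, hzp i]⟩
  let t : Fin r → Quotient (subgroupConj G p) := fun i => Quotient.mk _ (P i)
  have hinj : Function.Injective t := by
    intro i j hij
    by_contra hne
    obtain ⟨g, hg⟩ := Quotient.exact hij
    have h1 : g * z i * g⁻¹ ∈ Subgroup.zpowers (z j) :=
      (hg (z i)).mp (Subgroup.mem_zpowers (z i))
    have h2 : g * z i * g⁻¹ ∈ U j := by
      have : Subgroup.zpowers (z j) ≤ U j := by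
        rw [Subgroup.zpowers_le]; exact hzU j
      exact this h1
    have h3 : z i = 1 := no_common_conj (A := U i) (B := U j) (g := g)
      (by rw [hs i, hs j, hG, sq]) (hint i j hne) (hzU i) h2 rfl
    have h4 := hzp i
    rw [h3, orderOf_one] at h4
    exact hp.one_lt.ne h4
  have h := Nat.card_le_card_of_injective t hinj
  simpa using h

end Pool.Agent.Results.MP_bfe725_co.ClassBound
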