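import Pool.Agent.Lib.MP_bfe725_co.FinalFam
import Pool.Agent.Lib.MP_bfe725_co.OFinal
import Pool.Agent.Lib.MP_bfe725_co.OComm
import Pool.Agent.Lib.MP_bfe725_co.O8

set_option autoImplicit false

namespace Pool.Agent.Results.MP_bfe725_co.Classical

open Pool.Agent.Lib.MP_bfe725_co

/-- `H` is isomorphic to the quotient of the group `K` by its centre. -/
def IsProjectiveOf (H K : Type) [Group H] [Group K] : Prop :=
  Nonempty (H ≃* K ⧸ Subgroup.center K)

/-- The orthogonal group `O(V, Q)`: the linear automorphisms of `V` that preserve `Q`. -/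
def orthogonalGroup {F V : Type} [Field F] [AddCommGroup V] [Module F V]
    (Q : QuadraticForm F V) : Subgroup (V ≃ₗ[F] V) where
  carrier := {g | ∀ v, Q (g v) = Q v}
  one_mem' := fun _ => rfl
  mul_mem' := fun {a b} ha hb v => (ha (b v)).trans (hb v)
  inv_mem' := fun {a} ha v => (ha (a.symm v)).symm.trans (congrArg Q (a.apply_symm_apply v))

/-- The group `Ω(V, Q)`: the commutator subgroup of the orthogonal group of `Q`. -/
def Omega {F V : Type} [Field F] [AddCommGroup V] [Module F V] (Q : QuadraticForm F V) :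
    Subgroup (V ≃ₗ[F] V) := ⁅orthogonalGroup Q, orthogonalGroup Q⁆

/-- The finite classical groups: `H` is isomorphic to
* `PSL(n, F)` with `n ≥ 2`, or
* `PSp(2n, F)` with `n ≥ 2`, or
* `PSU(n, F)` with `n ≥ 3`, where `F` has a nontrivial involution (so `|F| = q ^ 2`),
  `(n, q) ≠ (3, 2), (4, 2)`, or
* `PΩ(V, Q)` with `dim V ≥ 7` and `Q` a quadratic form with nondegenerate polar form,
where `F` is a finite field. -/
inductive IsClassical (H : Type) [Group H] : Prop
  | linear (F : Type) [Field F] [Finite F] (n : ℕ) (hn : 2 ≤ n)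
      (e : IsProjectiveOf H (Matrix.SpecialLinearGroup (Fin n) F))
  | symplectic (F : Type) [Field F] [Finite F] (n : ℕ) (hn : 2 ≤ n)
      (e : IsProjectiveOf H (Matrix.symplecticGroup (Fin n) F))
  | unitary (F : Type) [Field F] [Finite F] [StarRing F] (hs : ∃ a : F, star a ≠ a) (n : ℕ)
      (hn : 3 ≤ n) (hex : ¬ (Nat.card F = 4 ∧ n ≤ 4))
      (e : IsProjectiveOf H (Matrix.specialUnitaryGroup (Fin n) F))
  | orthogonal (F V : Type) [Field F] [Finite F] [AddCommGroup V] [Module F V]
      (Q : QuadraticForm F V) (hQ : ∀ x, (∀ y, QuadraticMap.polar Q x y = 0) → x = 0)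
      (hV : 7 ≤ Module.finrank F V) (e : IsProjectiveOf H (Omega Q))

/-- `T(H × H) = 3` for all finite classical groups `H`. -/
theorem result : ∀ (H : Type) [Group H], IsClassical H → IsGreatest (pcpDegrees (H × H)) 3 := by
  intro H _ hH
  rcases hH with ⟨F, n, hn, e⟩ | ⟨F, n, hn, e⟩ | ⟨F, hs, n, hn, hex, e⟩ | ⟨F, V, Q, hQ, hV, e⟩
  · exact isGreatest_congr e (fam_linear F n hn)
  · exact isGreatest_congr e (fam_symplectic F n hn)
  · exact isGreatest_congr e (fam_unitary F hs n hn hex)
  · refine isGreatest_congr e ?_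
    have hfd : Module.Finite F V := Module.finite_of_finrank_pos (by omega)
    have hfin : Finite V := Module.finite_of_finite F
    have h5 : 5 ≤ Module.finrank F V := by omega
    have hE : Finite (EO Q) := fin_eo Q
    have key : IsGreatest (pcpDegrees ((EO Q ⧸ Subgroup.center (EO Q)) ×
        (EO Q ⧸ Subgroup.center (EO Q)))) 3 := by
      by_cases h8 : Nat.card F = 2 ∧ Module.finrank F V = 8 ∧ Nat.card {v : V // Q v = 0} = 136
      · obtain ⟨h1, h2, h3⟩ := h8
        exact fin_prime (p := 7) (by norm_num) (by norm_num) (o8_conj Q hQ h1 h2 h3)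
          (o8_dvd Q hQ h1 h2 h3)
      · exact o_isGreatest Q hQ h5 (by omega) h8
    have h : EO Q = Omega Q := eo_eq_comm Q hQ h5
    rwa [h] at key

end Pool.Agent.Results.MP_bfe725_co.Classical
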