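import Pool.Agent.Lib.MP_bfe725_co.CritG

set_option autoImplicit false

namespace Pool.Agent.Results.MP_bfe725_co.Criterion

open Pool.Agent.Lib.MP_bfe725_co

/-- Let `H` be a finite group and `p` a prime divisor of its order such that any two subgroups of
order `p` are conjugate, some element `x` of order `p` is conjugate to a power `x ^ j ≠ x`, and
there are no subgroups `K ≠ 1` and `B` of `H` with `|K| |B| = |H|`, `p ∤ |K|`, `p ∣ |B|` such that
`K` is normalised by an element of order `p`. Then `T(H × H) = 3`. -/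
theorem result : ∀ (H : Type) [Group H] [Finite H] (p : ℕ), p.Prime → p ∣ Nat.card H →
    (∀ x y : H, orderOf x = p → orderOf y = p → ∃ g : H, g * x * g⁻¹ ∈ Subgroup.zpowers y) →
    (∃ x g : H, ∃ j : ℕ, orderOf x = p ∧ g * x * g⁻¹ = x ^ j ∧ x ^ j ≠ x) →
    (∀ (K B : Subgroup H) (x : H), orderOf x = p → (∀ k ∈ K, x * k * x⁻¹ ∈ K) →
      ¬ p ∣ Nat.card K → p ∣ Nat.card B → Nat.card K * Nat.card B = Nat.card H → K = ⊥) →
    IsGreatest (pcpDegrees (H × H)) 3 := by
  intro H _ _ p hp hpH hconj hrat hpair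
  exact CritG.isGreatest ⟨hp, hpH, hconj, hrat, hpair⟩

end Pool.Agent.Results.MP_bfe725_co.Criterion
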